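import Mathlib

/-!
# The largest gap between the strong vertex span and the strong edge span is 1
-/

namespace Pool.Agent.Results.MP_5796a1_co.SpanGapIsOne

open Finset SimpleGraph

section Defs

/-- Weak homomorphisms: an edge is mapped to an edge or to a single vertex. -/
def IsWeakHom {A V : Type} (G : SimpleGraph A) (H : SimpleGraph V) (f : A → V) : Prop :=
  ∀ u v, G.Adj u v → f u = f v ∨ H.Adj (f u) (f v)

/-- Surjective, and every edge of `H` arises from an edge of `G`. -/
def EdgeSurjective {A V : Type} (G : SimpleGraph A) (H : SimpleGraph V) (f : A → V) : Prop :=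
  Function.Surjective f ∧ ∀ u v, H.Adj u v → ∃ x y, G.Adj x y ∧ f x = u ∧ f y = v

variable {V : Type} (H : SimpleGraph V)

/-- The strong vertex span: the maximum over all paths (with `n + 1` vertices) and all pairs of
surjective weak homomorphisms `f, g` of the minimum of `d(f u, g u)`. -/
noncomputable def sigmaV : ℕ :=
  sSup {m | ∃ (n : ℕ) (f g : Fin (n + 1) → V),
    IsWeakHom (pathGraph (n + 1)) H f ∧ IsWeakHom (pathGraph (n + 1)) H g ∧
    Function.Surjective f ∧ Function.Surjective g ∧ m = ⨅ u, H.dist (f u) (g u)}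

/-- The strong edge span: the same for edge surjective weak homomorphisms. -/
noncomputable def sigmaE : ℕ :=
  sSup {m | ∃ (n : ℕ) (f g : Fin (n + 1) → V),
    IsWeakHom (pathGraph (n + 1)) H f ∧ IsWeakHom (pathGraph (n + 1)) H g ∧
    EdgeSurjective (pathGraph (n + 1)) H f ∧ EdgeSurjective (pathGraph (n + 1)) H g ∧
    m = ⨅ u, H.dist (f u) (g u)}

end Defs

section Walks

variable {X : Type} {r : X → X → Prop}

/-- `p` is a walk of `n` steps. -/
def Good (r : X → X → Prop) (n : ℕ) (p : ℕ → X) : Prop := ∀ i < n, r (p i) (p (i + 1))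

lemma cat {n n' : ℕ} {p p' : ℕ → X} (h : Good r n p) (h' : Good r n' p') (he : p n = p' 0) :
    ∃ q : ℕ → X, Good r (n + n') q ∧ q 0 = p 0 ∧ q (n + n') = p' n' ∧
      (∀ i ≤ n, q i = p i) ∧ ∀ i ≤ n', q (n + i) = p' i := by
  let q : ℕ → X := fun i => if i ≤ n then p i else p' (i - n)
  have h1 : ∀ i ≤ n, q i = p i := fun i hi => by simp [q, hi]
  have h2 : ∀ i ≤ n', q (n + i) = p' i := by
    intro i _
    by_cases h0 : i = 0
    · subst h0
      simp [q, he]
    · have : ¬ n + i ≤ n := by omega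
      simp [q, this]
  refine ⟨q, ?_, h1 0 (Nat.zero_le _), h2 n' le_rfl, h1, h2⟩
  intro i hi
  rcases Nat.lt_or_ge i n with hin | hin
  · rw [h1 i (by omega), h1 (i + 1) (by omega)]
    exact h i hin
  · obtain ⟨j, rfl⟩ : ∃ j, i = n + j := ⟨i - n, by omega⟩
    rw [h2 j (by omega), Nat.add_assoc, h2 (j + 1) (by omega)]
    exact h' j (by omega)

lemma of_reach {a b : X} (h : Relation.ReflTransGen r a b) :
    ∃ n p, p 0 = a ∧ p n = b ∧ Good r n p := by
  induction h with
  | refl => exact ⟨0, fun _ => a, rfl, rfl, fun i hi => by omega⟩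
  | @tail b c _ h1 ih =>
    obtain ⟨n, p, hp1, hp2, hp3⟩ := ih
    have h2 : Good r 1 (fun i => if i = 0 then b else c) := by
      intro i hi
      have : i = 0 := by omega
      subst this
      simpa using h1
    obtain ⟨q, hq1, hq2, hq3, _⟩ := cat hp3 h2 (by simp [hp2])
    exact ⟨n + 1, q, by rw [hq2, hp1], by rw [hq3]; simp, hq1⟩

lemma reach_symm (hsymm : ∀ a b, r a b → r b a) {a b : X} (h : Relation.ReflTransGen r a b) :
    Relation.ReflTransGen r b a := by
  induction h with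
  | refl => exact Relation.ReflTransGen.refl
  | tail _ h1 ih => exact Relation.ReflTransGen.head (hsymm _ _ h1) ih

lemma tasks (hsymm : ∀ a b, r a b → r b a) (s : X) (L : List (X × X))
    (hL : ∀ e ∈ L, Relation.ReflTransGen r s e.1 ∧ r e.1 e.2) :
    ∃ n p, p 0 = s ∧ Good r n p ∧ ∀ e ∈ L, ∃ i < n, p i = e.1 ∧ p (i + 1) = e.2 := by
  induction L with
  | nil => exact ⟨0, fun _ => s, rfl, fun i hi => by omega, by simp⟩
  | cons e L ih =>
    obtain ⟨n, p, hp1, hp2, hp3⟩ := ih (fun e he => hL e (List.mem_cons_of_mem _ he))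
    obtain ⟨he1, he2⟩ := hL e List.mem_cons_self
    have hback : Relation.ReflTransGen r e.2 s := by
      have h1 : Relation.ReflTransGen r s e.2 := he1.tail he2
      exact reach_symm hsymm h1
    obtain ⟨n1, p1, a1, a2, a3⟩ := of_reach he1
    obtain ⟨n3, p3, c1, c2, c3⟩ := of_reach hback
    have b3 : Good r 1 (fun i => if i = 0 then e.1 else e.2) := by
      intro i hi
      have : i = 0 := by omega
      subst this
      simpa using he2
    obtain ⟨q1, d1, d2, d3, d4, d5⟩ := cat a3 b3 (by simp [a2])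
    obtain ⟨q2, e1, e2, e3, e4, e5⟩ := cat d1 c3 (by rw [d3, c1]; simp)
    obtain ⟨q3, f1, f2, f3, f4, f5⟩ := cat e1 hp2 (by rw [e3, c2, hp1])
    refine ⟨_, q3, by rw [f2, e2, d2, a1], f1, ?_⟩
    intro e' he'
    rcases List.mem_cons.mp he' with rfl | he'
    · refine ⟨n1, by omega, ?_, ?_⟩
      · rw [f4 n1 (by omega), e4 n1 (by omega), ← Nat.add_zero n1, d5 0 (by omega)]
        simp
      · rw [f4 (n1 + 1) (by omega), e4 (n1 + 1) (by omega), d5 1 le_rfl]
        simp
    · obtain ⟨i, hi, hi1, hi2⟩ := hp3 e' he'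
      refine ⟨n1 + 1 + n3 + i, by omega, ?_, ?_⟩
      · rw [f5 i (by omega), hi1]
      · rw [Nat.add_assoc (n1 + 1 + n3), f5 (i + 1) (by omega), hi2]

end Walks

section Upper

variable {V : Type} [Fintype V] (H : SimpleGraph V)

/-- Simultaneous steps of the two walkers keeping distance at least `q`. -/
def St (q : ℕ) (s t : V × V) : Prop :=
  (s.1 = t.1 ∨ H.Adj s.1 t.1) ∧ (s.2 = t.2 ∨ H.Adj s.2 t.2) ∧
    q ≤ H.dist s.1 s.2 ∧ q ≤ H.dist t.1 t.2

omit [Fintype V] in
lemma St.symm {q : ℕ} {s t : V × V} (h : St H q s t) : St H q t s :=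
  ⟨h.1.imp Eq.symm (fun h => h.symm), h.2.1.imp Eq.symm (fun h => h.symm), h.2.2.2, h.2.2.1⟩

lemma bdd (S : ∀ n, (Fin (n + 1) → V) → (Fin (n + 1) → V) → Prop) :
    BddAbove {m : ℕ | ∃ (n : ℕ) (f g : Fin (n + 1) → V), S n f g ∧ m = ⨅ u, H.dist (f u) (g u)} := by
  classical
  refine ⟨Finset.univ.sup (fun p : V × V => H.dist p.1 p.2), ?_⟩
  rintro m ⟨n, f, g, _, rfl⟩
  refine (ciInf_le (OrderBot.bddBelow _) 0).trans ?_
  exact Finset.le_sup (f := fun p : V × V => H.dist p.1 p.2) (mem_univ (f 0, g 0))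

lemma bddE : BddAbove {m | ∃ (n : ℕ) (f g : Fin (n + 1) → V),
    IsWeakHom (pathGraph (n + 1)) H f ∧ IsWeakHom (pathGraph (n + 1)) H g ∧
    EdgeSurjective (pathGraph (n + 1)) H f ∧ EdgeSurjective (pathGraph (n + 1)) H g ∧
    m = ⨅ u, H.dist (f u) (g u)} := by
  refine (bdd H (fun n f g => IsWeakHom (pathGraph (n + 1)) H f ∧
    IsWeakHom (pathGraph (n + 1)) H g ∧ EdgeSurjective (pathGraph (n + 1)) H f ∧
    EdgeSurjective (pathGraph (n + 1)) H g)).mono ?_
  rintro m ⟨n, f, g, h1, h2, h3, h4, h5⟩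
  exact ⟨n, f, g, ⟨h1, h2, h3, h4⟩, h5⟩

lemma bddV : BddAbove {m | ∃ (n : ℕ) (f g : Fin (n + 1) → V),
    IsWeakHom (pathGraph (n + 1)) H f ∧ IsWeakHom (pathGraph (n + 1)) H g ∧
    Function.Surjective f ∧ Function.Surjective g ∧ m = ⨅ u, H.dist (f u) (g u)} := by
  refine (bdd H (fun n f g => IsWeakHom (pathGraph (n + 1)) H f ∧
    IsWeakHom (pathGraph (n + 1)) H g ∧ Function.Surjective f ∧ Function.Surjective g)).mono ?_
  rintro m ⟨n, f, g, h1, h2, h3, h4, h5⟩
  exact ⟨n, f, g, ⟨h1, h2, h3, h4⟩, h5⟩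

omit [Fintype V] in
lemma weakHom_of_good {q n : ℕ} {p : ℕ → V × V} (h : Good (St H q) n p) :
    IsWeakHom (pathGraph (n + 1)) H (fun i : Fin (n + 1) => (p i).1) ∧
    IsWeakHom (pathGraph (n + 1)) H (fun i : Fin (n + 1) => (p i).2) := by
  constructor
  · intro u v huv
    rw [pathGraph_adj] at huv
    rcases huv with huv | huv
    · have := (h u (by omega)).1
      rw [huv] at this
      exact this
    · have := (h v (by omega)).1
      rw [huv] at this
      exact this.imp Eq.symm (fun h => h.symm)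
  · intro u v huv
    rw [pathGraph_adj] at huv
    rcases huv with huv | huv
    · have := (h u (by omega)).2.1
      rw [huv] at this
      exact this
    · have := (h v (by omega)).2.1
      rw [huv] at this
      exact this.imp Eq.symm (fun h => h.symm)

/-- Detours: the strong edge span is at least the strong vertex span minus one. -/
lemma gap_le (hH : H.Connected) : sigmaV H ≤ sigmaE H + 1 := by
  classical
  by_cases hne : {m | ∃ (n : ℕ) (f g : Fin (n + 1) → V),
    IsWeakHom (pathGraph (n + 1)) H f ∧ IsWeakHom (pathGraph (n + 1)) H g ∧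
    Function.Surjective f ∧ Function.Surjective g ∧ m = ⨅ u, H.dist (f u) (g u)}.Nonempty
  swap
  · rw [Set.not_nonempty_iff_eq_empty] at hne
    rw [sigmaV, hne]
    simp
  obtain ⟨n, f, g, hf, hg, hfs, hgs, hm⟩ := Nat.sSup_mem hne (bddV H)
  change sigmaV H = _ at hm
  rcases Nat.eq_zero_or_pos (sigmaV H) with h0 | hpos
  · omega
  have hd : ∀ u, sigmaV H ≤ H.dist (f u) (g u) := by
    intro u
    rw [hm]
    exact ciInf_le (OrderBot.bddBelow _) u
  set q := sigmaV H - 1 with hq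
  -- the states of the given walk are reachable
  have hreach : ∀ k : ℕ, ∀ hk : k < n + 1,
      Relation.ReflTransGen (St H q) (f 0, g 0) (f ⟨k, hk⟩, g ⟨k, hk⟩) := by
    intro k
    induction k with
    | zero => intro hk; exact Relation.ReflTransGen.refl
    | succ k ih =>
      intro hk
      refine (ih (by omega)).tail ?_
      have hadj : (pathGraph (n + 1)).Adj ⟨k, by omega⟩ ⟨k + 1, hk⟩ := by
        rw [pathGraph_adj]; left; rfl
      refine ⟨hf _ _ hadj, hg _ _ hadj, ?_, ?_⟩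
      · have := hd ⟨k, by omega⟩
        simp only
        omega
      · have := hd ⟨k + 1, hk⟩
        simp only
        omega
  -- lowering the distance by one
  have htri : ∀ a b c : V, H.Adj a b → H.dist a c ≤ H.dist b c + 1 := by
    intro a b c hab
    have := hH.dist_triangle (u := a) (v := b) (w := c)
    rw [SimpleGraph.dist_eq_one_iff_adj.mpr hab] at this
    omega
  -- the tasks
  let T1 : Finset ((V × V) × (V × V)) := univ.filter fun e =>
    Relation.ReflTransGen (St H q) (f 0, g 0) e.1 ∧ St H q e.1 e.2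
  obtain ⟨N, p, hp1, hp2, hp3⟩ := tasks (r := St H q) (fun a b h => h.symm) (f 0, g 0) T1.toList
    (by
      intro e he
      rw [Finset.mem_toList, mem_filter] at he
      exact he.2)
  have htask : ∀ s t, Relation.ReflTransGen (St H q) (f 0, g 0) s → St H q s t →
      ∃ i < N, p i = s ∧ p (i + 1) = t := by
    intro s t h1 h2
    apply hp3 (s, t)
    rw [Finset.mem_toList, mem_filter]
    exact ⟨mem_univ _, h1, h2⟩
  obtain ⟨w1, w2⟩ := weakHom_of_good H hp2
  -- edges of the first walker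
  have hE1 : ∀ u v, H.Adj u v → ∃ x y, (pathGraph (N + 1)).Adj x y ∧
      (fun i : Fin (N + 1) => (p i).1) x = u ∧ (fun i : Fin (N + 1) => (p i).1) y = v := by
    intro u v huv
    obtain ⟨k, rfl⟩ := hfs u
    have h1 := hreach k.val k.isLt
    obtain ⟨i, hi, hi1, hi2⟩ := htask (f k, g k) (v, g k) h1 ⟨Or.inr huv, Or.inl rfl, by
      have := hd k
      simp only
      omega, by
      have := hd k
      have := htri _ _ (g k) huv
      simp only
      omega⟩
    refine ⟨⟨i, by omega⟩, ⟨i + 1, by omega⟩, ?_, ?_, ?_⟩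
    · rw [pathGraph_adj]; left; rfl
    · simp only [hi1]
    · simp only [hi2]
  have hE2 : ∀ u v, H.Adj u v → ∃ x y, (pathGraph (N + 1)).Adj x y ∧
      (fun i : Fin (N + 1) => (p i).2) x = u ∧ (fun i : Fin (N + 1) => (p i).2) y = v := by
    intro u v huv
    obtain ⟨k, rfl⟩ := hgs u
    have h1 := hreach k.val k.isLt
    obtain ⟨i, hi, hi1, hi2⟩ := htask (f k, g k) (f k, v) h1 ⟨Or.inl rfl, Or.inr huv, by
      have := hd k
      simp only
      omega, by
      have := hd k
      have h3 := htri _ _ (f k) huv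
      rw [SimpleGraph.dist_comm, SimpleGraph.dist_comm (u := v)] at h3
      simp only
      omega⟩
    refine ⟨⟨i, by omega⟩, ⟨i + 1, by omega⟩, ?_, ?_, ?_⟩
    · rw [pathGraph_adj]; left; rfl
    · simp only [hi1]
    · simp only [hi2]
  -- vertices
  have hstay : ∀ k, St H q (f k, g k) (f k, g k) := fun k =>
    ⟨Or.inl rfl, Or.inl rfl, by have := hd k; simp only; omega, by have := hd k; simp only; omega⟩
  have hS1 : Function.Surjective (fun i : Fin (N + 1) => (p i).1) := by
    intro u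
    obtain ⟨k, rfl⟩ := hfs u
    obtain ⟨i, hi, hi1, _⟩ := htask _ _ (hreach k.val k.isLt) (hstay k)
    exact ⟨⟨i, by omega⟩, by simp only [hi1]⟩
  have hS2 : Function.Surjective (fun i : Fin (N + 1) => (p i).2) := by
    intro u
    obtain ⟨k, rfl⟩ := hgs u
    obtain ⟨i, hi, hi1, _⟩ := htask _ _ (hreach k.val k.isLt) (hstay k)
    exact ⟨⟨i, by omega⟩, by simp only [hi1]⟩
  have hle : (⨅ u : Fin (N + 1), H.dist (p u).1 (p u).2) ≤ sigmaE H :=
    le_csSup (bddE H) ⟨N, _, _, w1, w2, ⟨hS1, hE1⟩, ⟨hS2, hE2⟩, rfl⟩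
  have hge : q ≤ ⨅ u : Fin (N + 1), H.dist (p u).1 (p u).2 := by
    apply le_ciInf
    intro u
    rcases Nat.lt_or_ge u.val N with hu | hu
    · exact (hp2 u hu).2.2.1
    · have huN : (u : ℕ) = N := by have := u.isLt; omega
      rw [huN]
      rcases Nat.eq_zero_or_pos N with hN | hN
      · rw [hN, hp1]
        have := hd 0
        simp only
        omega
      · have := (hp2 (N - 1) (by omega)).2.2.2
        rwa [show N - 1 + 1 = N by omega] at this
  omega

lemma sigmaE_le_sigmaV (hne : {m | ∃ (n : ℕ) (f g : Fin (n + 1) → V),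
    IsWeakHom (pathGraph (n + 1)) H f ∧ IsWeakHom (pathGraph (n + 1)) H g ∧
    EdgeSurjective (pathGraph (n + 1)) H f ∧ EdgeSurjective (pathGraph (n + 1)) H g ∧
    m = ⨅ u, H.dist (f u) (g u)}.Nonempty) : sigmaE H ≤ sigmaV H := by
  obtain ⟨n, f, g, hf, hg, hfs, hgs, hm⟩ := Nat.sSup_mem hne (bddE H)
  exact le_csSup (bddV H) ⟨n, f, g, hf, hg, hfs.1, hgs.1, hm⟩

end Upper

section Example

/-- The example, a graph with 6 vertices and 9 edges. -/
def H6 : SimpleGraph (Fin 6) where
  Adj a b := (a, b) ∈ ([(1, 3), (2, 3), (1, 4), (2, 4), (3, 4), (0, 5), (1, 5), (2, 5), (4, 5)] :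
      List (Fin 6 × Fin 6)) ∨
    (b, a) ∈ ([(1, 3), (2, 3), (1, 4), (2, 4), (3, 4), (0, 5), (1, 5), (2, 5), (4, 5)] :
      List (Fin 6 × Fin 6))
  symm := ⟨fun _ _ h => h.symm⟩
  loopless := ⟨fun a h => by revert a h; decide⟩

instance : DecidableRel H6.Adj := fun a b => by unfold H6; infer_instance

lemma H6_conn : H6.Connected := by
  haveI : Nonempty (Fin 6) := ⟨0⟩
  have h1 : ∀ a : Fin 6, H6.Reachable 5 a := by
    have e0 : H6.Adj 5 0 := by decide
    have e1 : H6.Adj 5 1 := by decide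
    have e2 : H6.Adj 5 2 := by decide
    have e4 : H6.Adj 5 4 := by decide
    have e3 : H6.Adj 4 3 := by decide
    intro a
    fin_cases a
    · exact e0.reachable
    · exact e1.reachable
    · exact e2.reachable
    · exact e4.reachable.trans e3.reachable
    · exact e4.reachable
    · exact Reachable.refl _
  exact Connected.mk fun u v => (h1 u).symm.trans (h1 v)

lemma two_le_dist {a b : Fin 6} (h1 : a ≠ b) (h2 : ¬ H6.Adj a b) : 2 ≤ H6.dist a b := by
  have h3 : H6.dist a b ≠ 0 := by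
    rw [Ne, H6_conn.dist_eq_zero_iff]; exact h1
  have h4 : H6.dist a b ≠ 1 := by
    rw [Ne, SimpleGraph.dist_eq_one_iff_adj]; exact h2
  omega

lemma of_two_le_dist {a b : Fin 6} (h : 2 ≤ H6.dist a b) : a ≠ b ∧ ¬ H6.Adj a b := by
  constructor
  · rintro rfl
    simp at h
  · intro h2
    rw [SimpleGraph.dist_eq_one_iff_adj.mpr h2] at h
    omega

/-- The first walker. -/
def f6 : Fin 11 → Fin 6 := ![3, 3, 4, 2, 3, 3, 1, 5, 0, 0, 0]

/-- The second walker. -/
def g6 : Fin 11 → Fin 6 := ![5, 0, 0, 0, 0, 5, 2, 3, 3, 4, 1]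

lemma walk6 : ∀ u v : Fin 11, (u.val + 1 = v.val ∨ v.val + 1 = u.val) →
    (f6 u = f6 v ∨ H6.Adj (f6 u) (f6 v)) ∧ (g6 u = g6 v ∨ H6.Adj (g6 u) (g6 v)) := by
  decide +kernel

lemma sigmaV6 : 2 ≤ sigmaV H6 := by
  have h1 : (⨅ u, H6.dist (f6 u) (g6 u)) ≤ sigmaV H6 := by
    refine le_csSup (bddV H6) ⟨10, f6, g6, ?_, ?_, ?_, ?_, rfl⟩
    · intro u v huv
      rw [pathGraph_adj] at huv
      exact (walk6 u v huv).1
    · intro u v huv
      rw [pathGraph_adj] at huv
      exact (walk6 u v huv).2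
    · show ∀ b, ∃ a, f6 a = b
      decide +kernel
    · show ∀ b, ∃ a, g6 a = b
      decide +kernel
  refine le_trans (le_ciInf fun u => ?_) h1
  have h2 : ∀ u, f6 u ≠ g6 u ∧ ¬ H6.Adj (f6 u) (g6 u) := by decide +kernel
  exact two_le_dist (h2 u).1 (h2 u).2

lemma blocked : ∀ b b' : Fin 6, 4 ≠ b → ¬ H6.Adj 4 b → 5 ≠ b' → ¬ H6.Adj 5 b' →
    b ≠ b' ∧ ¬ H6.Adj b b' := by
  decide +kernel

lemma sigmaE6 : sigmaE H6 ≤ 1 := by
  by_contra hlt
  push Not at hlt
  have hne : {m | ∃ (n : ℕ) (f g : Fin (n + 1) → Fin 6),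
    IsWeakHom (pathGraph (n + 1)) H6 f ∧ IsWeakHom (pathGraph (n + 1)) H6 g ∧
    EdgeSurjective (pathGraph (n + 1)) H6 f ∧ EdgeSurjective (pathGraph (n + 1)) H6 g ∧
    m = ⨅ u, H6.dist (f u) (g u)}.Nonempty := by
    by_contra hemp
    rw [Set.not_nonempty_iff_eq_empty] at hemp
    rw [sigmaE, hemp] at hlt
    simp at hlt
  obtain ⟨n, f, g, _, hg, hfs, _, hm⟩ := Nat.sSup_mem hne (bddE H6)
  change sigmaE H6 = _ at hm
  have hd : ∀ u, 2 ≤ H6.dist (f u) (g u) := by
    intro u
    refine (show 2 ≤ sigmaE H6 from hlt).trans ?_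
    rw [hm]
    exact ciInf_le (OrderBot.bddBelow _) u
  obtain ⟨x, y, hxy, hx, hy⟩ := hfs.2 4 5 (by decide)
  have h1 := of_two_le_dist (hd x)
  have h2 := of_two_le_dist (hd y)
  rw [hx] at h1
  rw [hy] at h2
  have h3 := blocked (g x) (g y) h1.1 h1.2 h2.1 h2.2
  rcases hg x y hxy with h | h
  · exact h3.1 h
  · exact h3.2 h

end Example

/-- The set of all values `σ_V(H) - σ_E(H)` for finite connected graphs `H`. -/
def gaps : Set ℤ := {d | ∃ (V : Type) (_ : Fintype V) (H : SimpleGraph V), H.Connected ∧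
  d = (sigmaV H : ℤ) - (sigmaE H : ℤ)}

/-- **The maximum of `σ_V(H) - σ_E(H)` over all finite connected graphs is `1`.** -/
theorem result : IsGreatest gaps 1 := by
  constructor
  · refine ⟨Fin 6, inferInstance, H6, H6_conn, ?_⟩
    have h1 := sigmaV6
    have h2 := sigmaE6
    have h3 := gap_le H6 H6_conn
    omega
  · rintro d ⟨V, _, H, hH, rfl⟩
    have := gap_le H hH
    omega

end Pool.Agent.Results.MP_5796a1_co.SpanGapIsOne
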